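import Pool.Agent.H66.IP.TC

/-!
# The stage of a protocol
-/

set_option autoImplicit false

namespace Pool.Agent.H43.IP

open Finset Pool.Agent.H66.IP Pool.Agent.H6.NB Pool.Agent.H70.OQ Pool.Agent.H70.EH
  Pool.Agent.H70.EI Pool.Agent.H78.XQ
open Pool.Agent.H75.OM (BPos)

theorem ofFn_surj {n : ℕ} (v : List Bool) (h : v.length = n) :
    ∃ x : Fin n → Bool, List.ofFn x = v := by
  subst h
  exact ⟨v.get, List.ofFn_get v⟩

/-- The table with one special row. -/
def spr {n : ℕ} (z : Fin n → Bool) : (Fin n → Bool) → Bool := fun x => decide (x = z)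

/-- GST. -/
theorem pf_GST (hLOW : T_LOW) (hSTJ : Pool.Agent.H66.IP.T_STJ) (hGFL : T_GFL) (hNDL : T_NDL)
    (hGLO : T_GLO) (hSPF : T_SPF) (hPLT : T_PLT) : T_GST := by
  intro V G hG N M O hgood
  obtain ⟨_, _, _, s4, s5, _⟩ := hSPF V
  obtain ⟨_, t2, _, _⟩ := hPLT
  obtain ⟨n, hn⟩ : ∃ n, n = N + M + 20 := ⟨_, rfl⟩
  have hcube : n + 1 ≤ (n + 1) ^ 3 := Nat.le_self_pow (by norm_num) _
  obtain ⟨c, hc⟩ : ∃ c, c = 16 * (n + 1) ^ 3 := ⟨_, rfl⟩
  have hM1 : M < c := by omega
  obtain ⟨O₁, hO₁⟩ := hLOW V M c O hM1 hgood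
  obtain ⟨hval, m, hm⟩ := hGLO (G n)
  have hg1 : ∀ p, (sp V p).length ≤ 16 * (n + 1) ^ 3 → Good V p O₁ := fun p hp =>
    hO₁.good p (by omega)
  obtain ⟨O', z, b, hA, hB, hC, hD1, hD2⟩ := hSTJ V n 0 (m + c + 1) O₁
    (fun A => (G n).val A) (Fin n → Bool) (fun _ _ => false) (fun z => spr z) (by omega)
    (by omega) hg1 (fun A A' h => hm A A' fun w hw => h w (by omega)) hval
    (hGFL V n (G n) (hG n).1 (hG n).2) (fun A hA => hNDL n (G n) A hA (hG n).2)
  rw [← hc] at hB
  have htab : ∀ (x : Nn n 0) (w : List Bool), w = false :: nstr n 0 x → n + 1 ≤ w.length := by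
    intro x w hx
    have := (t2 0 n x).1
    rw [hx, List.length_cons]
    omega
  refine ⟨m + c + 1, O', ⟨by omega, ?_, hA⟩, ?_⟩
  · intro w hw
    rw [← hO₁.eq w hw]
    rcases hw with hw | ⟨p, hp, hb⟩
    · refine hB w (fun x hx => ?_) (fun p hp hb => ?_)
      · have := htab x w hx
        omega
      · have := (s4 p w hb).1
        omega
    · refine hB w (fun x hx => ?_) (fun p' hp' hb' => ?_)
      · obtain ⟨w', hw'⟩ := (s4 p w hb).2
        rw [hx] at hw'
        exact Bool.false_ne_true (List.cons.inj hw').1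
      · have := s5 p p' w hb hb'
        rw [this] at hp
        omega
  · intro O'' hO''
    refine ⟨n, by omega, fun hpr => ?_⟩
    have hv : (G n).val O'' = (G n).val O' := hm _ _ fun w hw => hO'' w (by omega)
    have hwit : ∀ v : List Bool, v.length = n → O'' (false :: v) = O' (false :: v) := by
      intro v hv
      apply hO''
      rw [List.length_cons, hv]
      omega
    have hstr : ∀ x : Fin n → Bool, nstr n 0 x = List.ofFn x := fun _ => rfl
    cases b with
    | true =>
      have hno : List.replicate n false ∉ wit O'' := by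
        rintro ⟨v, hv1, hv2⟩
        rw [List.length_replicate] at hv1
        rw [hwit v hv1] at hv2
        obtain ⟨x, hx⟩ := ofFn_surj v hv1
        have := hC x
        rw [hstr, hx, if_pos rfl] at this
        rw [this] at hv2
        exact Bool.false_ne_true hv2
      have h1 := hpr.1 hno
      have h2 := hD1 rfl
      rw [hv] at h1
      linarith
    | false =>
      have hyes : List.replicate n false ∈ wit O'' := by
        refine ⟨List.ofFn z, ?_, ?_⟩
        · rw [List.length_ofFn, List.length_replicate]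
        · rw [hwit _ List.length_ofFn, ← hstr z, hC z, if_neg Bool.false_ne_true]
          exact decide_eq_true rfl
      have h1 := hpr.2 (not_not.mpr hyes)
      have h2 := hD2 rfl
      rw [hv] at h1
      linarith

end Pool.Agent.H43.IP
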