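import Pool.Agent.H66.IP.TC

/-!
# Protocols are game trees
-/

set_option autoImplicit false

namespace Pool.Agent.H43.IP

open Finset Pool.Agent.H66.IP Pool.Agent.H6.NB Pool.Agent.H70.EI

section

variable {X : Type}

/-- `y` fits to the claims `τ`. -/
def Fits (τ : X → Option Bool) (y : X → Bool) : Prop := ∀ v b, τ v = some b → y v = b

theorem lv_one {c : Bool} {τ : X → Option Bool} {y : X → Bool} (h : c = true ∧ Fits τ y) :
    Pool.Agent.H66.IP.lv c τ y = 1 := if_pos h

theorem lv_zero {c : Bool} {τ : X → Option Bool} {y : X → Bool} (h : ¬ (c = true ∧ Fits τ y)) :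
    Pool.Agent.H66.IP.lv c τ y = 0 := if_neg h

variable [Fintype X]

open Classical in
/-- The number of literals. -/
noncomputable def nl (τ : X → Option Bool) : ℕ := (univ.filter fun v => τ v ≠ none).card

theorem wd_lf (c : Bool) (τ : X → Option Bool) : (Tr.lf c τ).wd = nl τ := rfl

open Classical in
theorem nl_update (τ : X → Option Bool) (v : X) (b : Option Bool) :
    nl (Function.update τ v b) ≤ nl τ + 1 := by
  unfold nl
  have hsub : (univ.filter fun w => Function.update τ v b w ≠ none) ⊆
      insert v (univ.filter fun w => τ w ≠ none) := by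
    intro w hw
    rw [mem_filter] at hw
    rw [mem_insert, mem_filter]
    by_cases h : w = v
    · exact Or.inl h
    · right
      rw [Function.update_of_ne h] at hw
      exact hw
  exact (card_le_card hsub).trans (card_insert_le _ _)

open Classical in
theorem fits_update (τ : X → Option Bool) (v : X) (b : Bool) (hv : τ v = none) (y : X → Bool) :
    Fits (Function.update τ v (some b)) y ↔ Fits τ y ∧ y v = b := by
  constructor
  · intro h
    refine ⟨fun w c hw => ?_, ?_⟩
    · by_cases hwv : w = v
      · subst hwv
        rw [hv] at hw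
        exact absurd hw (by simp)
      · exact h w c (by rw [Function.update_of_ne hwv]; exact hw)
    · exact h v b (by rw [Function.update_self])
  · rintro ⟨h, hb⟩ w c hw
    by_cases hwv : w = v
    · subst hwv
      rw [Function.update_self] at hw
      rw [hb]
      exact Option.some.inj hw
    · rw [Function.update_of_ne hwv] at hw
      exact h w c hw

/-- Decision trees. -/
theorem dt_tree (O : (X → Bool) → List Bool → Bool) (hO : Lit O) (T : DT) :
    ∀ τ : X → Option Bool, ∃ t : Tr X, t.cc ≤ T.depth ∧ t.dp ≤ T.depth ∧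
      t.wd ≤ nl τ + T.depth ∧ ∀ y, (Fits τ y ∧ T.eval (O y) = true → t.ev y = 1) ∧
        (¬ (Fits τ y ∧ T.eval (O y) = true) → t.ev y = 0) := by
  classical
  induction T with
  | leaf b =>
    intro τ
    refine ⟨Tr.lf b τ, le_rfl, le_rfl, le_rfl, fun y => ⟨fun h => ?_, fun h => ?_⟩⟩
    · exact lv_one ⟨h.2, h.1⟩
    · exact lv_zero fun h' => h ⟨h'.2, h'.1⟩
  | node w l r ihl ihr =>
    intro τ
    have hev : ∀ y, (DT.node w l r).eval (O y) = if O y w then r.eval (O y) else l.eval (O y) :=
      fun _ => rfl
    have hd : (DT.node w l r).depth = max l.depth r.depth + 1 := rfl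
    have hdl : l.depth ≤ (DT.node w l r).depth := by omega
    have hdr : r.depth ≤ (DT.node w l r).depth := by omega
    rcases hO w with ⟨b, hb⟩ | ⟨v, hv⟩
    · cases b with
      | false =>
        obtain ⟨t, h1, h2, h3, h4⟩ := ihl τ
        refine ⟨t, h1.trans hdl, h2.trans hdl, h3.trans (by omega), fun y => ?_⟩
        rw [hev, hb y]
        exact h4 y
      | true =>
        obtain ⟨t, h1, h2, h3, h4⟩ := ihr τ
        refine ⟨t, h1.trans hdr, h2.trans hdr, h3.trans (by omega), fun y => ?_⟩
        rw [hev, hb y]
        exact h4 y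
    · rcases hτ : τ v with _ | b
      · obtain ⟨tl, l1, l2, l3, l4⟩ := ihl (Function.update τ v (some false))
        obtain ⟨tr, r1, r2, r3, r4⟩ := ihr (Function.update τ v (some true))
        have hcc : (Tr.ch tl tr).cc = max tl.cc tr.cc + 1 := rfl
        have hdp : (Tr.ch tl tr).dp = max tl.dp tr.dp + 1 := rfl
        have hwd : (Tr.ch tl tr).wd = max tl.wd tr.wd := rfl
        have n1 := nl_update τ v (some false)
        have n2 := nl_update τ v (some true)
        refine ⟨Tr.ch tl tr, by omega, by omega, by omega, fun y => ?_⟩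
        have hm : (Tr.ch tl tr).ev y = max (tl.ev y) (tr.ev y) := rfl
        have fl := fits_update τ v false hτ y
        have fr := fits_update τ v true hτ y
        rw [hm, hev, hv y]
        rcases hyv : y v with _ | _
        · have hr0 : tr.ev y = 0 := (r4 y).2 fun h => by
            have := (fr.mp h.1).2
            rw [hyv] at this
            exact absurd this (by simp)
          rw [hr0]
          refine ⟨fun h => ?_, fun h => ?_⟩
          · rw [(l4 y).1 ⟨fl.mpr ⟨h.1, hyv⟩, by simpa using h.2⟩]
            exact max_eq_left zero_le_one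
          · rw [(l4 y).2 fun h' => h ⟨(fl.mp h'.1).1, by simpa using h'.2⟩]
            exact max_self 0
        · have hl0 : tl.ev y = 0 := (l4 y).2 fun h => by
            have := (fl.mp h.1).2
            rw [hyv] at this
            exact absurd this (by simp)
          rw [hl0]
          refine ⟨fun h => ?_, fun h => ?_⟩
          · rw [(r4 y).1 ⟨fr.mpr ⟨h.1, hyv⟩, by simpa using h.2⟩]
            exact max_eq_right zero_le_one
          · rw [(r4 y).2 fun h' => h ⟨(fr.mp h'.1).1, by simpa using h'.2⟩]
            exact max_self 0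
      · cases b with
        | false =>
          obtain ⟨t, h1, h2, h3, h4⟩ := ihl τ
          refine ⟨t, h1.trans hdl, h2.trans hdl, h3.trans (by omega), fun y => ?_⟩
          rw [hev, hv y]
          refine ⟨fun h => (h4 y).1 ⟨h.1, ?_⟩, fun h => (h4 y).2 fun h' => h ⟨h'.1, ?_⟩⟩
          · have := h.1 v false hτ
            simpa [this] using h.2
          · have := h'.1 v false hτ
            simpa [this] using h'.2
        | true =>
          obtain ⟨t, h1, h2, h3, h4⟩ := ihr τ
          refine ⟨t, h1.trans hdr, h2.trans hdr, h3.trans (by omega), fun y => ?_⟩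
          rw [hev, hv y]
          refine ⟨fun h => (h4 y).1 ⟨h.1, ?_⟩, fun h => (h4 y).2 fun h' => h ⟨h'.1, ?_⟩⟩
          · have := h.1 v true hτ
            simpa [this] using h.2
          · have := h'.1 v true hτ
            simpa [this] using h'.2

end

/-- GTR. -/
theorem pf_GTR : T_GTR := by
  classical
  intro X _ G O hO
  induction G with
  | test T =>
    obtain ⟨t, h1, h2, h3, h4⟩ := dt_tree O hO T (fun _ => none)
    have hn : nl (fun _ : X => (none : Option Bool)) = 0 := by
      unfold nl
      simp
    refine ⟨t, ?_, ?_, ?_, fun y => ?_⟩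
    · exact h1.trans (Nat.le_add_left _ _)
    · exact h2.trans (Nat.le_add_left _ _)
    · rw [hn, zero_add] at h3
      exact h3
    · have hf : Fits (fun _ : X => (none : Option Bool)) y := fun v b h => absurd h (by simp)
      change t.ev y = if T.eval (O y) = true then 1 else 0
      by_cases h : T.eval (O y) = true
      · rw [if_pos h, (h4 y).1 ⟨hf, h⟩]
      · rw [if_neg h, (h4 y).2 fun h' => h h'.2]
  | coin l r ihl ihr =>
    obtain ⟨tl, l1, l2, l3, l4⟩ := ihl
    obtain ⟨tr, r1, r2, r3, r4⟩ := ihr
    have e1 : (Tr.av tl tr).cc = max tl.cc tr.cc := rfl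
    have e2 : (Tr.av tl tr).dp = max tl.dp tr.dp + 1 := rfl
    have e3 : (Tr.av tl tr).wd = max tl.wd tr.wd := rfl
    have e4 : (Game.coin l r).moves = max l.moves r.moves + 1 := rfl
    have e5 : (Game.coin l r).qry = max l.qry r.qry := rfl
    refine ⟨Tr.av tl tr, by omega, by omega, by omega, fun y => ?_⟩
    change (tl.ev y + tr.ev y) / 2 = (l.val (O y) + r.val (O y)) / 2
    rw [l4, r4]
  | say l r ihl ihr =>
    obtain ⟨tl, l1, l2, l3, l4⟩ := ihl
    obtain ⟨tr, r1, r2, r3, r4⟩ := ihr
    have e1 : (Tr.ch tl tr).cc = max tl.cc tr.cc + 1 := rfl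
    have e2 : (Tr.ch tl tr).dp = max tl.dp tr.dp + 1 := rfl
    have e3 : (Tr.ch tl tr).wd = max tl.wd tr.wd := rfl
    have e4 : (Game.say l r).moves = max l.moves r.moves + 1 := rfl
    have e5 : (Game.say l r).qry = max l.qry r.qry := rfl
    refine ⟨Tr.ch tl tr, by omega, by omega, by omega, fun y => ?_⟩
    change max (tl.ev y) (tr.ev y) = max (l.val (O y)) (r.val (O y))
    rw [l4, r4]

end Pool.Agent.H43.IP
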