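import Pool.Agent.H66.IP.TC

/-!
# One stage
-/

set_option autoImplicit false

namespace Pool.Agent.H43.IP

open Finset Pool.Agent.H66.IP Pool.Agent.H6.NB Pool.Agent.H70.OQ Pool.Agent.H70.EH
  Pool.Agent.H70.EI Pool.Agent.H78.XQ
open Pool.Agent.H75.OM (BPos)

/-- The value of the oracle at the position of a block does not depend on the default. -/
theorem isz_pos {V : ℕ → ATM} {E : Finset (ℕ × List Bool)}
    {O : (∀ p : {a // a ∈ E}, CP V p.1) → (List Bool → Bool) → List Bool → Bool}
    (hO : IsZ V E O) {p : ℕ × List Bool} (hp : p ∈ E) {w : List Bool} (hw : BPos V p w)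
    (P : ∀ p : {a // a ∈ E}, CP V p.1) (g g' : List Bool → Bool) : O P g w = O P g' w := by
  rcases hw with ⟨u, v, b, rfl⟩ | ⟨z, rfl⟩
  · have h1 := congrFun (congrFun (hO.blk P g p hp) u) (b, v)
    have h2 := congrFun (congrFun (hO.blk P g' p hp) u) (b, v)
    exact h1.trans h2.symm
  · have h1 := congrFun (hO.cor P g p hp) z
    have h2 := congrFun (hO.cor P g' p hp) z
    exact h1.trans h2.symm

/-- The value of `tbo` outside the table. -/
theorem tbo_out {n k : ℕ} (O : List Bool → Bool) (T : Nn n k → Bool) {w : List Bool}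
    (hw : ∀ x : Nn n k, w ≠ false :: nstr n k x) : tbo n k O T w = O w := by
  unfold tbo
  rw [dif_neg]
  rintro ⟨x, hx⟩
  exact hw x hx

/-- The value of `tbo` on the table. -/
theorem tbo_in (hinj : ∀ (k n : ℕ) (x x' : Nn n k), nstr n k x = nstr n k x' → x = x')
    {n k : ℕ} (O : List Bool → Bool) (T : Nn n k → Bool) (x : Nn n k) :
    tbo n k O T (false :: nstr n k x) = T x := by
  have h : ∃ x' : Nn n k, false :: nstr n k x = false :: nstr n k x' := ⟨x, rfl⟩
  unfold tbo
  rw [dif_pos h]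
  congr 1
  have hs := h.choose_spec
  exact (hinj k n _ _ (List.cons.inj hs).2).symm

theorem lit_tbo (n k : ℕ) (O : List Bool → Bool) : Lit (tbo n k O) := by
  intro w
  by_cases h : ∃ x : Nn n k, w = false :: nstr n k x
  · right
    refine ⟨h.choose, fun y => ?_⟩
    unfold tbo
    rw [dif_pos h]
  · left
    refine ⟨O w, fun y => ?_⟩
    unfold tbo
    rw [dif_neg h]

theorem lit_isz {V : ℕ → ATM} {E : Finset (ℕ × List Bool)}
    {O : (∀ p : {a // a ∈ E}, CP V p.1) → (List Bool → Bool) → List Bool → Bool}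
    (hO : IsZ V E O) (P : ∀ p : {a // a ∈ E}, CP V p.1) {X : Type}
    (g : (X → Bool) → List Bool → Bool) (hg : Lit g) : Lit fun y => O P (g y) := by
  intro w
  by_cases h : ∃ p ∈ E, BPos V p w
  · obtain ⟨p, hp, hw⟩ := h
    left
    exact ⟨O P (fun _ => false) w, fun y => isz_pos hO hp hw P _ _⟩
  · have hn : ∀ p ∈ E, ¬ BPos V p w := fun p hp hw => h ⟨p, hp, hw⟩
    rcases hg w with ⟨b, hb⟩ | ⟨v, hv⟩
    · exact Or.inl ⟨b, fun y => (hO.out w hn P _).trans (hb y)⟩
    · exact Or.inr ⟨v, fun y => (hO.out w hn P _).trans (hv y)⟩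

/-- STJ. -/
theorem pf_STJ (hSTG : Pool.Agent.H66.IP.T_STG) (hISZ : T_ISZ) (_hIZU : T_IZU) (hSPF : T_SPF) (hGLC : T_GLC)
    (hPLT : T_PLT) : Pool.Agent.H66.IP.T_STJ := by
  classical
  intro V n k M O F Z _ _ T₁ T₂ hn hM hgood _hloc hF hfool hgap
  obtain ⟨_, s2, _, s4, s5, s6⟩ := hSPF V
  obtain ⟨_, t2, t3, _⟩ := hPLT
  set E : Finset (ℕ × List Bool) :=
    (s6 M).toFinset.filter fun p => 16 * (n + 1) ^ 3 < (sp V p).length with hE
  have hmem : ∀ p, p ∈ E ↔ (sp V p).length ≤ M ∧ 16 * (n + 1) ^ 3 < (sp V p).length := by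
    intro p
    rw [hE, mem_filter, Set.Finite.mem_toFinset]
    rfl
  obtain ⟨OO, hOO⟩ := hISZ (dm V) E
  have hscl : ∀ p ∈ E, n + 1 ≤ scl V p := by
    intro p hp
    have h1 := ((hmem p).mp hp).2
    have h2 := (s2 p).2.2
    by_contra hlt
    have h3 : scl V p + 1 ≤ n + 1 := by omega
    have h4 : (scl V p + 1) ^ 3 ≤ (n + 1) ^ 3 := Nat.pow_le_pow_left h3 3
    omega
  -- the gap
  have hgap' : ∀ P, ∑ z, (F (OO P (tbo n k O (T₁ z))) - F (OO P (tbo n k O (T₂ z)))) ≤
      Fintype.card Z / 4 := by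
    intro P
    exact hgap (fun y => OO P (tbo n k O y)) (lit_isz hOO P _ (lit_tbo n k O))
  obtain ⟨z, P, hres⟩ := hSTG V n E OO F Z (fun z => tbo n k O (T₁ z))
    (fun z => tbo n k O (T₂ z)) hOO hn hscl hF hfool hgap'
  -- properties of the oracle for a table
  have hout : ∀ (T : Nn n k → Bool) (w : List Bool), (∀ x : Nn n k, w ≠ false :: nstr n k x) →
      (∀ p ∈ E, ¬ BPos (dm V) p w) → OO P (tbo n k O T) w = O w := by
    intro T w h1 h2
    rw [hOO.out w h2, tbo_out O T h1]
  have hA : ∀ T : Nn n k → Bool, (∀ p ∈ E, Good V p (OO P (tbo n k O T))) →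
      ∀ p, (sp V p).length ≤ M → Good V p (OO P (tbo n k O T)) := by
    intro T hT p hp
    by_cases hpe : p ∈ E
    · exact hT p hpe
    · have hp1 : (sp V p).length ≤ 16 * (n + 1) ^ 3 := by
        by_contra hlt
        exact hpe ((hmem p).mpr ⟨hp, by omega⟩)
      refine hGLC V p O _ (fun w hw => ?_) (hgood p hp1)
      symm
      rcases hw with hw | hw
      · have h2 := (s2 p).2.1
        have h3 : scl V p ≤ n + 1 := by
          by_contra hlt
          have h4 : (n + 2) ^ 3 ≤ scl V p ^ 3 := Nat.pow_le_pow_left (by omega) 3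
          have h5 : (n + 1) ^ 3 < (n + 2) ^ 3 := Nat.pow_lt_pow_left (by omega) (by norm_num)
          omega
        refine hout T w (fun x hx => ?_) (fun p' hp' hb => ?_)
        · have := (t2 k n x).1
          rw [hx, List.length_cons] at hw
          omega
        · have h6 := (s4 p' w hb).1
          have h7 := ((hmem p').mp hp').2
          have h8 : n + 1 ≤ (n + 1) ^ 3 := Nat.le_self_pow (by norm_num) _
          omega
      · refine hout T w (fun x hx => ?_) (fun p' hp' hb => ?_)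
        · obtain ⟨w', hw'⟩ := (s4 p w hw).2
          rw [hx] at hw'
          exact absurd hw' (by simp)
        · have := s5 p p' w hw hb
          rw [this] at hpe
          exact hpe hp'
  have hB : ∀ (T : Nn n k → Bool) (w : List Bool), (∀ x : Nn n k, w ≠ false :: nstr n k x) →
      (∀ p, 16 * (n + 1) ^ 3 < (sp V p).length → ¬ BPos (dm V) p w) →
      OO P (tbo n k O T) w = O w := by
    intro T w h1 h2
    exact hout T w h1 fun p hp => h2 p ((hmem p).mp hp).2
  have hC : ∀ (T : Nn n k → Bool) (x : Nn n k),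
      OO P (tbo n k O T) (false :: nstr n k x) = T x := by
    intro T x
    rw [hOO.out, tbo_in t3]
    intro p _ hb
    obtain ⟨w', hw'⟩ := (s4 p _ hb).2
    exact absurd hw' (by simp)
  rcases hres with ⟨h1, h2⟩ | ⟨h1, h2⟩
  · refine ⟨OO P (tbo n k O (T₁ z)), z, true, hA _ h1, hB _, fun x => ?_, fun _ => h2, ?_⟩
    · rw [hC]; rfl
    · intro h; exact absurd h (by simp)
  · refine ⟨OO P (tbo n k O (T₂ z)), z, false, hA _ h1, hB _, fun x => ?_, ?_, fun _ => h2⟩
    · rw [hC]; rfl
    · intro h; exact absurd h (by simp)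

end Pool.Agent.H43.IP
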