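import Pool.Agent.H43.IP.TRN

/-!
# The step at a choice if all masses are small
-/

set_option autoImplicit false

namespace Pool.Agent.H43.IP

open Finset Pool.Agent.H66.IP

/-- Sum over the four corners. -/
def s4 (f : Bool → Bool → ℝ) : ℝ :=
  f false false + f true false + f false true + f true true

theorem s4_le {f g : Bool → Bool → ℝ} (h : ∀ i j, f i j ≤ g i j) : s4 f ≤ s4 g := by
  unfold s4
  have h1 := h false false
  have h2 := h true false
  have h3 := h false true
  have h4 := h true true
  linarith

theorem s4_single {f : Bool → Bool → ℝ} (h : ∀ i j, 0 ≤ f i j) (i j : Bool) :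
    f i j ≤ s4 f := by
  unfold s4
  have h1 := h false false
  have h2 := h true false
  have h3 := h false true
  have h4 := h true true
  cases i <;> cases j <;> linarith

theorem exp_le_two {x : ℝ} (h : x ≤ 0.65) : Real.exp x ≤ 2 := by
  have h1 : x ≤ Real.log 2 := by
    have := Real.log_two_gt_d9
    linarith
  calc Real.exp x ≤ Real.exp (Real.log 2) := Real.exp_le_exp.mpr h1
    _ = 2 := Real.exp_log (by norm_num)

theorem exp_le_inv {x : ℝ} (h : x < 1) : Real.exp x ≤ 1 / (1 - x) := by
  have h1 := Real.one_sub_le_exp_neg x
  rw [le_div_iff₀ (by linarith)]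
  have h2 : Real.exp x * Real.exp (-x) = 1 := by
    rw [← Real.exp_add]; simp
  have h3 := Real.exp_pos x
  nlinarith

/-- The contribution of a child. -/
theorem child_num (hSQA : T_SQA) (hSQB : T_SQB) (hEXQ : T_EXQ) (hEXB : T_EXB)
    {β θ : ℝ} {k : ℕ} (hβ : 1 ≤ β) (hk : 1 ≤ k) (hθ : 0 < θ) (hθk : β * θ * k = 1 / 40)
    (G a a' W R : Bool → Bool → ℝ) (hS : Sq G a a') (K : ℝ) (hK : 0 ≤ K)
    (hW : ∀ i j, |W i j - W (!i) j| ≤ θ ∧ |W i j - W i (!j)| ≤ θ)
    (hO : ∀ i j, 0 ≤ ow a a' i j) (hOR : ∀ i j, ow a a' i j ≤ R i j)
    (hD : |G true true - G true false - G false true + G false false| ≤ K * s4 R) :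
    Real.exp (2 * (β * θ)) / β *
      (Real.exp (β * W false false) * (|Real.exp (β * G true true) - Real.exp (β * G true false) -
        Real.exp (β * G false true) + Real.exp (β * G false false)| / 2) /
        (Real.exp (β * W true false) * Real.exp (β * W false true))) ≤
      s4 (fun i j => Real.exp (β * (G i j - W i j)) / 2 *
        ((Real.exp (1 / k) * K + 104 * β * k) * R i j)) := by
  have hβ0 : 0 < β := by linarith
  have hk' : (1 : ℝ) ≤ k := by exact_mod_cast hk
  have hbt : 0 < β * θ := mul_pos hβ0 hθ
  have hbt1 : β * θ ≤ 1 / 40 := by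
    have : β * θ * 1 ≤ β * θ * k := mul_le_mul_of_nonneg_left hk' hbt.le
    linarith
  have hR0 : ∀ i j, 0 ≤ R i j := fun i j => (hO i j).trans (hOR i j)
  have hWW : ∀ i j i' j', W i j - W i' j' ≤ 2 * θ := by
    have w1 := abs_le.mp (hW true true).1
    have w2 := abs_le.mp (hW true true).2
    have w3 := abs_le.mp (hW false false).1
    have w4 := abs_le.mp (hW false false).2
    simp only [Bool.not_true, Bool.not_false] at w1 w2 w3 w4
    intro i j i' j'
    cases i <;> cases j <;> cases i' <;> cases j' <;> linarith [w1.1, w1.2, w2.1, w2.2, w3.1,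
      w3.2, w4.1, w4.2]
  set D := |Real.exp (β * G true true) - Real.exp (β * G true false) -
        Real.exp (β * G false true) + Real.exp (β * G false false)| with hDdef
  have hD0 : 0 ≤ D := abs_nonneg _
  have hfac : Real.exp (2 * (β * θ)) / β *
      (Real.exp (β * W false false) * (D / 2) /
        (Real.exp (β * W true false) * Real.exp (β * W false true))) =
      Real.exp (2 * (β * θ) + β * (W false false - W true false - W false true)) / (2 * β) * D := by
    have : β * (W false false - W true false - W false true) =
        β * W false false - β * W true false - β * W false true := by ring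
    rw [this, Real.exp_add, Real.exp_sub, Real.exp_sub]
    field_simp
  rw [hfac]
  have hC0 : 0 ≤ Real.exp (1 / k) * K + 104 * β * k := by positivity
  by_cases hvar : ∀ i j i' j', G i j - G i' j' ≤ 4 * θ
  · -- small variation
    have h1 := hEXQ G β θ hβ0 hθ hvar (fun i j => Real.exp (β * G i j)) (fun _ _ => rfl)
    have h2 := hSQA G a a' hS false false false false
    rw [← hDdef] at h1
    have h3 : ow a a' true true + ow a a' true false + ow a a' false true +
        ow a a' false false = s4 (ow a a') := by unfold s4; ring
    rw [h3] at h2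
    have h4 : D ≤ Real.exp (β * G false false) * Real.exp (16 * (β * θ)) *
        (β ^ 2 * (2 * s4 (ow a a')) + β * (K * s4 R)) := by
      refine h1.trans (mul_le_mul_of_nonneg_left ?_ (by positivity))
      exact add_le_add (mul_le_mul_of_nonneg_left h2 (by positivity))
        (mul_le_mul_of_nonneg_left hD hβ0.le)
    have h5 : Real.exp (2 * (β * θ) + β * (W false false - W true false - W false true)) /
        (2 * β) * D ≤ s4 (fun i j =>
          (Real.exp (2 * (β * θ) + β * (W false false - W true false - W false true)) *
            (Real.exp (β * G false false) * Real.exp (16 * (β * θ))) / 2) *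
            (2 * β * ow a a' i j + K * R i j)) := by
      calc _ ≤ Real.exp (2 * (β * θ) + β * (W false false - W true false - W false true)) /
            (2 * β) * (Real.exp (β * G false false) * Real.exp (16 * (β * θ)) *
            (β ^ 2 * (2 * s4 (ow a a')) + β * (K * s4 R))) :=
            mul_le_mul_of_nonneg_left h4 (by positivity)
        _ = _ := by
            unfold s4
            field_simp
            ring
    refine h5.trans (s4_le fun i j => ?_)
    have h6 : Real.exp (2 * (β * θ) + β * (W false false - W true false - W false true)) *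
            (Real.exp (β * G false false) * Real.exp (16 * (β * θ))) ≤
          Real.exp (26 * (β * θ)) * Real.exp (β * (G i j - W i j)) := by
      rw [← Real.exp_add, ← Real.exp_add, ← Real.exp_add]
      apply Real.exp_le_exp.mpr
      have g1 := hvar false false i j
      have g2 := hWW false false true false
      have g3 := hWW i j false true
      have : 0 ≤ β * (26 * θ + (G i j - W i j) - (2 * θ + (W false false - W true false -
          W false true) + (G false false + 16 * θ))) :=
        mul_nonneg hβ0.le (by linarith)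
      nlinarith
    have hO' := hO i j
    have hOR' := hOR i j
    have hR' := hR0 i j
    have h7 : Real.exp (26 * (β * θ)) ≤ 2 := exp_le_two (by linarith)
    have h8 : Real.exp (26 * (β * θ)) ≤ Real.exp (1 / k) := by
      apply Real.exp_le_exp.mpr
      rw [le_div_iff₀ (by linarith)]
      nlinarith
    have hq : 0 ≤ Real.exp (β * (G i j - W i j)) / 2 := by positivity
    calc _ ≤ (Real.exp (26 * (β * θ)) * Real.exp (β * (G i j - W i j)) / 2) *
            (2 * β * ow a a' i j + K * R i j) := by
            apply mul_le_mul_of_nonneg_right _ (by positivity)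
            linarith
      _ = Real.exp (β * (G i j - W i j)) / 2 * (Real.exp (26 * (β * θ)) * (2 * β * ow a a' i j) +
            Real.exp (26 * (β * θ)) * (K * R i j)) := by ring
      _ ≤ Real.exp (β * (G i j - W i j)) / 2 *
          ((Real.exp (1 / k) * K + 104 * β * k) * R i j) := by
            apply mul_le_mul_of_nonneg_left _ hq
            have e1 : Real.exp (26 * (β * θ)) * (2 * β * ow a a' i j) ≤
                2 * (2 * β * R i j) := by
              apply mul_le_mul h7 _ (by positivity) (by norm_num)
              exact mul_le_mul_of_nonneg_left hOR' (by positivity)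
            have e2 : Real.exp (26 * (β * θ)) * (K * R i j) ≤ Real.exp (1 / k) * (K * R i j) :=
              mul_le_mul_of_nonneg_right h8 (by positivity)
            have e3 : β * R i j ≤ β * k * R i j := by
              have : 0 ≤ β * R i j := by positivity
              nlinarith
            nlinarith [mul_nonneg hβ0.le hR']
  · -- large variation
    push Not at hvar
    obtain ⟨i₁, j₁, i₂, j₂, h12⟩ := hvar
    obtain ⟨i₀, j₀, hM, hor⟩ := hSQB G a a' θ hS hθ ⟨i₁, j₁, i₂, j₂, h12.le⟩
    have hO' := hO i₀ j₀
    have hOR' := hOR i₀ j₀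
    have h1 := hEXB G β (ow a a' i₀ j₀ / θ) (G i₀ j₀ + 2 * θ) hβ0 (div_nonneg hO' hθ.le)
      (fun i j => by have := hM i j; linarith) hor (fun i j => Real.exp (β * G i j))
      (fun _ _ => rfl)
    rw [← hDdef] at h1
    refine le_trans ?_ (s4_single (fun i j => ?_) i₀ j₀)
    · have h2 : Real.exp (2 * (β * θ) + β * (W false false - W true false - W false true)) *
          Real.exp (β * (G i₀ j₀ + 2 * θ)) ≤
          Real.exp (7 * (β * θ)) * Real.exp (β * (G i₀ j₀ - W i₀ j₀)) := by
        rw [← Real.exp_add, ← Real.exp_add]
        apply Real.exp_le_exp.mpr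
        have g2 := hWW false false true false
        have g2' := abs_le.mp (hW false false).1
        simp only [Bool.not_false] at g2'
        have g3 := hWW i₀ j₀ false true
        have : 0 ≤ β * (7 * θ + (G i₀ j₀ - W i₀ j₀) - (2 * θ + (W false false - W true false -
            W false true) + (G i₀ j₀ + 2 * θ))) :=
          mul_nonneg hβ0.le (by linarith [g2'.2])
        nlinarith
      have h3 : Real.exp (7 * (β * θ)) ≤ 5 / 4 := by
        refine (exp_le_inv (by linarith)).trans ?_
        rw [div_le_iff₀ (by linarith)]
        linarith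
      have h4 : 1 / θ = 40 * β * k := by
        rw [div_eq_iff hθ.ne']
        linarith
      have hq : 0 ≤ Real.exp (β * (G i₀ j₀ - W i₀ j₀)) := (Real.exp_pos _).le
      calc _ ≤ Real.exp (2 * (β * θ) + β * (W false false - W true false - W false true)) /
            (2 * β) * (2 * (β * (ow a a' i₀ j₀ / θ)) * Real.exp (β * (G i₀ j₀ + 2 * θ))) :=
            mul_le_mul_of_nonneg_left h1 (by positivity)
        _ = (Real.exp (2 * (β * θ) + β * (W false false - W true false - W false true)) *
            Real.exp (β * (G i₀ j₀ + 2 * θ))) * (ow a a' i₀ j₀ * (1 / θ)) := by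
            field_simp
        _ ≤ (Real.exp (7 * (β * θ)) * Real.exp (β * (G i₀ j₀ - W i₀ j₀))) *
            (ow a a' i₀ j₀ * (1 / θ)) := mul_le_mul_of_nonneg_right h2 (by positivity)
        _ ≤ (5 / 4 * Real.exp (β * (G i₀ j₀ - W i₀ j₀))) * (ow a a' i₀ j₀ * (1 / θ)) := by
            apply mul_le_mul_of_nonneg_right _ (by positivity)
            exact mul_le_mul_of_nonneg_right h3 hq
        _ = Real.exp (β * (G i₀ j₀ - W i₀ j₀)) / 2 * (100 * β * k * ow a a' i₀ j₀) := by
            rw [h4]; ring
        _ ≤ Real.exp (β * (G i₀ j₀ - W i₀ j₀)) / 2 *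
            ((Real.exp (1 / k) * K + 104 * β * k) * R i₀ j₀) := by
            apply mul_le_mul_of_nonneg_left _ (by positivity)
            have e1 : 100 * β * k * ow a a' i₀ j₀ ≤ 100 * β * k * R i₀ j₀ :=
              mul_le_mul_of_nonneg_left hOR' (by positivity)
            have e2 : 0 ≤ (Real.exp (1 / k) * K + 4 * β * k) * R i₀ j₀ :=
              mul_nonneg (by positivity) (hR0 _ _)
            nlinarith
    · exact mul_nonneg (by positivity) (mul_nonneg hC0 (hR0 _ _))

section

variable {V : Type} [DecidableEq V]

/-- The corners of the square. -/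
def cn (x z : V) (y : V → Bool) : Bool → Bool → (V → Bool)
  | false, false => y
  | true, false => fp x y
  | false, true => fp z y
  | true, true => fp x (fp z y)

theorem fpx_cn (x z : V) (y : V → Bool) (i j : Bool) :
    fp x (cn x z y i j) = cn x z y (!i) j := by
  cases i <;> cases j <;> simp [cn, fp_fp]

theorem fpz_cn {x z : V} (h : x ≠ z) (y : V → Bool) (i j : Bool) :
    fp z (cn x z y i j) = cn x z y i (!j) := by
  cases i <;> cases j
  · simp [cn]
  · simp [cn, fp_fp]
  · simp only [cn, Bool.not_false]
    exact (fp_comm h y).symm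
  · simp only [cn, Bool.not_true]
    rw [fp_comm h, fp_fp]

end

section

variable {V : Type} [Fintype V] [DecidableEq V]

theorem sq_cn (hEVS : T_EVS) (hMSS : T_MSS) (hLIP : T_LIP) {β : ℝ} (hβ : 0 < β) (m : Tr V)
    {x z : V} (hxz : x ≠ z) (y : V → Bool) :
    Sq (fun i j => m.sv β (cn x z y i j)) (fun i j => m.ms β x (cn x z y i j))
      (fun i j => m.ms β z (cn x z y i j)) where
  g0 := fun i j => (hEVS V β m _ hβ).1
  g1 := fun i j => (hEVS V β m _ hβ).2.1.trans (hEVS V β m (cn x z y i j) hβ).2.2.1
  a0 := fun i j => ((hMSS V β m _ hβ).1 x).1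
  a1 := fun i j => ((hMSS V β m _ hβ).1 x).2
  b0 := fun i j => ((hMSS V β m _ hβ).1 z).1
  b1 := fun i j => ((hMSS V β m _ hβ).1 z).2
  da := fun i j => by
    have := lip1 hLIP hβ m x (cn x z y i j)
    rwa [fpx_cn] at this
  db := fun i j => by
    have := lip1 hLIP hβ m z (cn x z y i j)
    rwa [fpz_cn hxz] at this
  dab := fun i j => by
    have := lip2 hLIP hβ m hxz (cn x z y i j)
    rwa [fpz_cn hxz, fpx_cn] at this

theorem ow_cn (β : ℝ) (m : Tr V) {x z : V} (hxz : x ≠ z) (y : V → Bool) (i j : Bool) :
    ow (fun i j => m.ms β x (cn x z y i j)) (fun i j => m.ms β z (cn x z y i j)) i j =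
      m.own β x z (cn x z y i j) := by
  rw [own_eq, fpx_cn, fpz_cn hxz]
  rfl

theorem c4_eq (x z : V) (F : (V → Bool) → ℝ) (y : V → Bool) :
    c4 x z F y = s4 (fun i j => F (cn x z y i j)) := rfl

theorem dd_eq (x z : V) (F : (V → Bool) → ℝ) (y : V → Bool) :
    dd x z F y = F (cn x z y true true) - F (cn x z y true false) - F (cn x z y false true) +
      F (cn x z y false false) := rfl

end

/-- LGT. -/
theorem pf_LGT (hSMA : T_SMA) (hEVS : T_EVS) (hMSS : T_MSS) (hLIP : T_LIP) (hRSM : T_RSM)
    (hTRN : T_TRN) (hSQA : T_SQA) (hSQB : T_SQB) (hEXQ : T_EXQ) (hEXB : T_EXB)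
    (hLGR : T_LGR) : T_LGT := by
  intro V _ _ β k l r K y x z hβ hk hcc hxz hK hlight hl hr
  have hβ0 : 0 < β := by linarith
  have hk' : (1 : ℝ) ≤ k := by exact_mod_cast hk
  have hθ := tht_pos hβ hk
  have hθk := tht_mul hβ hk
  set θ := tht β k with hθdef
  set u := Tr.ch l r with hu
  have hbt : 0 < β * θ := mul_pos hβ0 hθ
  have hbt1 : β * θ ≤ 1 / 40 := by
    have : β * θ * 1 ≤ β * θ * k := mul_le_mul_of_nonneg_left hk' hbt.le
    linarith
  have hlight' : ∀ i j, u.ms β x (cn x z y i j) < θ ∧ u.ms β z (cn x z y i j) < θ := by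
    intro i j
    apply hlight
    cases i <;> cases j <;> simp [cn]
  have hm := fun (m : Tr V) w y' => ((hMSS V β m y' hβ0).1 w).1
  have hOw := fun (m : Tr V) y' => ((hRSM V β m y' hβ0).1 x z).1
  have hOR := fun (m : Tr V) y' => ((hRSM V β m y' hβ0).1 x z).2
  have hR := fun (m : Tr V) y' => (hOw m y').trans (hOR m y')
  -- the differences of the value at the node
  have hW : ∀ i j, |u.sv β (cn x z y i j) - u.sv β (cn x z y (!i) j)| ≤ θ ∧
      |u.sv β (cn x z y i j) - u.sv β (cn x z y i (!j))| ≤ θ := by
    intro i j
    have q1 := lip1 hLIP hβ0 u x (cn x z y i j)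
    have q2 := lip1' hLIP hβ0 u x (cn x z y i j)
    have q3 := lip1 hLIP hβ0 u z (cn x z y i j)
    have q4 := lip1' hLIP hβ0 u z (cn x z y i j)
    rw [fpx_cn] at q1 q2
    rw [fpz_cn hxz] at q3 q4
    have a1 := (hlight' i j).1
    have a2 := (hlight' (!i) j).1
    have a3 := (hlight' i j).2
    have a4 := (hlight' i (!j)).2
    constructor
    · rw [abs_le]; constructor <;> linarith
    · rw [abs_le]; constructor <;> linarith
  have sv_eq : ∀ y', u.sv β y' = smx β (l.sv β y') (r.sv β y') := fun _ => rfl
  have gl : ∀ y', gw β (l.sv β y') (r.sv β y') = Real.exp (β * (l.sv β y' - u.sv β y')) / 2 :=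
    fun y' => (hSMA β hβ0 _ _).2.2.1
  have gr : ∀ y', gw β (r.sv β y') (l.sv β y') = Real.exp (β * (r.sv β y' - u.sv β y')) / 2 :=
    fun y' => by
      rw [sv_eq, (hSMA β hβ0 (l.sv β y') (r.sv β y')).1.2.2.2]
      exact (hSMA β hβ0 _ _).2.2.1
  have hZ : ∀ y', Real.exp (β * u.sv β y') =
      (Real.exp (β * l.sv β y') + Real.exp (β * r.sv β y')) / 2 := fun y' =>
    (hSMA β hβ0 _ _).2.2.2.1
  have hrr : ∀ y', u.rr β x z y' = u.own β x z y' +
      (gw β (l.sv β y') (r.sv β y') * l.rr β x z y' +
        gw β (r.sv β y') (l.sv β y') * r.rr β x z y') := fun _ => rfl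
  -- the two children
  have cm : ∀ m : Tr V, |dd x z (m.sv β) y| ≤ K * c4 x z (m.rr β x z) y →
      Real.exp (2 * (β * θ)) / β * (Real.exp (β * u.sv β (cn x z y false false)) *
        (|Real.exp (β * m.sv β (cn x z y true true)) - Real.exp (β * m.sv β (cn x z y true false)) -
        Real.exp (β * m.sv β (cn x z y false true)) +
          Real.exp (β * m.sv β (cn x z y false false))| / 2) /
        (Real.exp (β * u.sv β (cn x z y true false)) *
          Real.exp (β * u.sv β (cn x z y false true)))) ≤
      s4 (fun i j => Real.exp (β * (m.sv β (cn x z y i j) - u.sv β (cn x z y i j))) / 2 *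
        ((Real.exp (1 / k) * K + 104 * β * k) * m.rr β x z (cn x z y i j))) := by
    intro m hmm
    refine child_num hSQA hSQB hEXQ hEXB hβ hk hθ hθk (fun i j => m.sv β (cn x z y i j))
      (fun i j => m.ms β x (cn x z y i j)) (fun i j => m.ms β z (cn x z y i j))
      (fun i j => u.sv β (cn x z y i j)) (fun i j => m.rr β x z (cn x z y i j))
      (sq_cn hEVS hMSS hLIP hβ0 m hxz y) K hK hW (fun i j => ?_) (fun i j => ?_) ?_
    · rw [ow_cn β m hxz]; exact hOw m _
    · rw [ow_cn β m hxz]; exact hOR m _
    · rw [c4_eq, dd_eq] at hmm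
      exact hmm
  have hcl := cm l hl
  have hcr := cm r hr
  -- the passage from the partition functions to the value
  have hmain := hLGR (fun i j => u.sv β (cn x z y i j)) β θ hβ0 hθ hW
    (fun i j => Real.exp (β * u.sv β (cn x z y i j))) (fun _ _ => rfl)
  -- the last term
  have hlast : |u.sv β (cn x z y true false) - u.sv β (cn x z y false false)| *
      |u.sv β (cn x z y false true) - u.sv β (cn x z y false false)| ≤
      6 * s4 (fun i j => u.rr β x z (cn x z y i j)) := by
    have q1 : |u.sv β (cn x z y true false) - u.sv β (cn x z y false false)| ≤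
        u.ms β x (cn x z y true false) + u.ms β x (cn x z y false false) := by
      have q1 := lip1 hLIP hβ0 u x (cn x z y true false)
      have q2 := lip1 hLIP hβ0 u x (cn x z y false false)
      rw [fpx_cn] at q1 q2
      simp only [Bool.not_true, Bool.not_false] at q1 q2
      have := hm u x (cn x z y true false)
      have := hm u x (cn x z y false false)
      rw [abs_le]; constructor <;> linarith
    have q2 : |u.sv β (cn x z y false true) - u.sv β (cn x z y false false)| ≤
        u.ms β z (cn x z y false true) + u.ms β z (cn x z y false false) := by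
      have q1 := lip1 hLIP hβ0 u z (cn x z y false true)
      have q2 := lip1 hLIP hβ0 u z (cn x z y false false)
      rw [fpz_cn hxz] at q1 q2
      simp only [Bool.not_true, Bool.not_false] at q1 q2
      have := hm u z (cn x z y false true)
      have := hm u z (cn x z y false false)
      rw [abs_le]; constructor <;> linarith
    have q3 := hTRN V β k u (cn x z y false true) x z hβ hk hcc hxz
    rw [fpx_cn, Bool.not_false, ← hθdef] at q3
    have o1 := hOR u (cn x z y false false)
    have o2 := hOR u (cn x z y true false)
    have o3 := hOR u (cn x z y false true)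
    have o4 := hOR u (cn x z y true true)
    rw [own_eq, fpx_cn, fpz_cn hxz] at o1 o2 o3 o4
    simp only [Bool.not_true, Bool.not_false] at o1 o2 o3 o4
    have r1 := hR u (cn x z y false false)
    have r2 := hR u (cn x z y true false)
    have r3 := hR u (cn x z y false true)
    have r4 := hR u (cn x z y true true)
    have x1 := hm u x (cn x z y false false)
    have x2 := hm u x (cn x z y true false)
    have x3 := hm u x (cn x z y false true)
    have x4 := hm u x (cn x z y true true)
    have z1 := hm u z (cn x z y false false)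
    have z2 := hm u z (cn x z y true false)
    have z3 := hm u z (cn x z y false true)
    have z4 := hm u z (cn x z y true true)
    have t2 := (hlight' true false).1
    unfold s4
    simp only
    generalize u.rr β x z (cn x z y false false) = R1 at *
    generalize u.rr β x z (cn x z y true false) = R2 at *
    generalize u.rr β x z (cn x z y false true) = R3 at *
    generalize u.rr β x z (cn x z y true true) = R4 at *
    generalize u.ms β x (cn x z y false false) = X1 at *
    generalize u.ms β x (cn x z y true false) = X2 at *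
    generalize u.ms β x (cn x z y false true) = X3 at *
    generalize u.ms β x (cn x z y true true) = X4 at *
    generalize u.ms β z (cn x z y false false) = Z1 at *
    generalize u.ms β z (cn x z y true false) = Z2 at *
    generalize u.ms β z (cn x z y false true) = Z3 at *
    generalize u.ms β z (cn x z y true true) = Z4 at *
    have m11 := mul_nonneg x1 z1
    have m12 := mul_nonneg x1 z2
    have m13 := mul_nonneg x1 z3
    have m21 := mul_nonneg x2 z1
    have m22 := mul_nonneg x2 z2
    have m24 := mul_nonneg x2 z4
    have m31 := mul_nonneg x3 z1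
    have m33 := mul_nonneg x3 z3
    have m34 := mul_nonneg x3 z4
    have m42 := mul_nonneg x4 z2
    have m43 := mul_nonneg x4 z3
    have m44 := mul_nonneg x4 z4
    have e4 : X2 * Z3 ≤ 3 * (X2 * Z4) + 3 * (R3 + R4) := by
      calc X2 * Z3 ≤ X2 * (3 * (Z4 + (R3 + R4) / θ)) := mul_le_mul_of_nonneg_left q3 x2
        _ = 3 * (X2 * Z4) + 3 * (X2 * ((R3 + R4) / θ)) := by ring
        _ ≤ 3 * (X2 * Z4) + 3 * (θ * ((R3 + R4) / θ)) := by
            have : X2 * ((R3 + R4) / θ) ≤ θ * ((R3 + R4) / θ) :=
              mul_le_mul_of_nonneg_right t2.le (div_nonneg (by linarith) hθ.le)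
            linarith
        _ = 3 * (X2 * Z4) + 3 * (R3 + R4) := by
            rw [mul_div_cancel₀ _ hθ.ne']
    refine (mul_le_mul q1 q2 (abs_nonneg _) (by linarith)).trans ?_
    have hex : (X2 + X1) * (Z3 + Z1) = X2 * Z3 + X2 * Z1 + X1 * Z3 + X1 * Z1 := by ring
    rw [hex]
    have f1 : X1 * Z1 ≤ R1 := by nlinarith
    have f2 : X2 * Z1 ≤ R2 := by nlinarith
    have f3 : X1 * Z3 ≤ R3 := by nlinarith
    have f4 : X2 * Z4 ≤ R4 := by nlinarith
    linarith
  -- the sum over the children
  have hsum : s4 (fun i j => Real.exp (β * (l.sv β (cn x z y i j) - u.sv β (cn x z y i j))) / 2 *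
        ((Real.exp (1 / k) * K + 104 * β * k) * l.rr β x z (cn x z y i j))) +
      s4 (fun i j => Real.exp (β * (r.sv β (cn x z y i j) - u.sv β (cn x z y i j))) / 2 *
        ((Real.exp (1 / k) * K + 104 * β * k) * r.rr β x z (cn x z y i j))) ≤
      (Real.exp (1 / k) * K + 104 * β * k) * s4 (fun i j => u.rr β x z (cn x z y i j)) := by
    have hC : 0 ≤ Real.exp (1 / k) * K + 104 * β * k := by positivity
    have hpt : ∀ y', Real.exp (β * (l.sv β y' - u.sv β y')) / 2 * l.rr β x z y' +
        Real.exp (β * (r.sv β y' - u.sv β y')) / 2 * r.rr β x z y' ≤ u.rr β x z y' := by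
      intro y'
      rw [hrr y', ← gl y', ← gr y']
      have := hOw u y'
      linarith
    have hpp := s4_le (fun i j => hpt (cn x z y i j))
    have := mul_le_mul_of_nonneg_left hpp hC
    refine le_trans (le_of_eq ?_) this
    unfold s4
    ring
  -- the first term
  have hfirst : Real.exp (2 * (β * θ)) / β * (Real.exp (β * u.sv β (cn x z y false false)) *
      |Real.exp (β * u.sv β (cn x z y true true)) - Real.exp (β * u.sv β (cn x z y true false)) -
        Real.exp (β * u.sv β (cn x z y false true)) +
          Real.exp (β * u.sv β (cn x z y false false))| /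
        (Real.exp (β * u.sv β (cn x z y true false)) *
          Real.exp (β * u.sv β (cn x z y false true)))) ≤
      (Real.exp (1 / k) * K + 104 * β * k) * s4 (fun i j => u.rr β x z (cn x z y i j)) := by
    refine le_trans ?_ ((add_le_add hcl hcr).trans hsum)
    rw [← mul_add, ← add_div, ← mul_add, ← add_div]
    apply mul_le_mul_of_nonneg_left _ (by positivity)
    apply div_le_div_of_nonneg_right _ (by positivity)
    apply mul_le_mul_of_nonneg_left _ (by positivity)
    rw [hZ (cn x z y true true), hZ (cn x z y true false), hZ (cn x z y false true),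
      hZ (cn x z y false false), le_div_iff₀ (by norm_num : (0 : ℝ) < 2)]
    refine le_trans (le_of_eq ?_) (abs_add_le _ _)
    rw [← abs_two (α := ℝ), ← abs_mul, abs_two]
    congr 1
    ring
  have hexp : Real.exp (4 * (β * θ)) ≤ 7 / 6 := by
    refine (exp_le_inv (by linarith)).trans ?_
    rw [div_le_iff₀ (by linarith)]
    linarith
  have hs0 : 0 ≤ s4 (fun i j => u.rr β x z (cn x z y i j)) := by
    unfold s4
    have r1 := hR u (cn x z y false false)
    have r2 := hR u (cn x z y true false)
    have r3 := hR u (cn x z y false true)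
    have r4 := hR u (cn x z y true true)
    simp only
    linarith
  have hlast' : Real.exp (4 * (β * θ)) * β *
      (|u.sv β (cn x z y true false) - u.sv β (cn x z y false false)| *
      |u.sv β (cn x z y false true) - u.sv β (cn x z y false false)|) ≤
      7 * β * k * s4 (fun i j => u.rr β x z (cn x z y i j)) := by
    calc _ ≤ (7 / 6 * β) * (6 * s4 (fun i j => u.rr β x z (cn x z y i j))) := by
          apply mul_le_mul _ hlast (by positivity) (by positivity)
          exact mul_le_mul_of_nonneg_right hexp hβ0.le
      _ = 7 * β * 1 * s4 (fun i j => u.rr β x z (cn x z y i j)) := by ring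
      _ ≤ 7 * β * k * s4 (fun i j => u.rr β x z (cn x z y i j)) := by
          apply mul_le_mul_of_nonneg_right _ hs0
          exact mul_le_mul_of_nonneg_left hk' (by positivity)
  rw [dd_eq, c4_eq]
  refine hmain.trans ((add_le_add hfirst hlast').trans ?_)
  have : 0 ≤ β * k * s4 (fun i j => u.rr β x z (cn x z y i j)) := by positivity
  nlinarith

end Pool.Agent.H43.IP
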