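import Pool.Agent.H66.IP.TA

/-!
# Numbers on a square with large variation
-/

set_option autoImplicit false

namespace Pool.Agent.H43.IP

open Pool.Agent.H66.IP

theorem sq_swap {g a c : Bool → Bool → ℝ} (h : Sq g a c) :
    Sq (fun i j => g j i) (fun i j => c j i) (fun i j => a j i) where
  g0 := fun i j => h.g0 j i
  g1 := fun i j => h.g1 j i
  a0 := fun i j => h.b0 j i
  a1 := fun i j => h.b1 j i
  b0 := fun i j => h.a0 j i
  b1 := fun i j => h.a1 j i
  da := fun i j => h.db j i
  db := fun i j => h.da j i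
  dab := fun i j => by have := h.dab j i; linarith

theorem ow_swap (a c : Bool → Bool → ℝ) (i j : Bool) :
    ow (fun i j => c j i) (fun i j => a j i) j i = ow a c i j := by
  unfold ow
  ring

/-- The case of a small mass in the first direction at the top corner, numbers only. -/
theorem sqb_num (g1 g2 g3 g4 a1 a2 a3 a4 c1 c2 θ : ℝ) (hθ : 0 < θ)
    (ha1 : 0 ≤ a1) (ha2 : 0 ≤ a2) (ha3 : 0 ≤ a3) (ha4 : 0 ≤ a4) (hc1 : 0 ≤ c1) (hc2 : 0 ≤ c2)
    (t2 : g2 ≤ g1) (t3 : g3 ≤ g1) (t4 : g4 ≤ g1)
    (h12 : g1 - g2 ≤ a1) (h34 : g3 - g4 ≤ a3) (h43 : g4 - g3 ≤ a4)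
    (h13 : g1 - g3 ≤ c1) (h24 : g2 - g4 ≤ c2) (h14 : g1 - g4 ≤ a1 + c1)
    (h23 : g2 - g3 ≤ a2 + c2) (hlow : 4 * θ ≤ g1 - g3 ∨ 4 * θ ≤ g1 - g4)
    (hs : a1 < θ) :
    ∀ M : ℝ, a1 * (c1 + c2) + c1 * (a1 + a3) ≤ M → a2 * (c2 + c1) + c2 * (a2 + a4) ≤ M →
      |g1 - g2| ≤ M / θ ∧ |g3 - g4| ≤ M / θ := by
  intro M hM1 hM2
  have hc3 : 3 * θ ≤ c1 := by
    rcases hlow with h | h
    · linarith
    · linarith
  have hp11 : 0 ≤ a1 * c1 := mul_nonneg ha1 hc1
  have hp12 : 0 ≤ a1 * c2 := mul_nonneg ha1 hc2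
  have hp31 : 0 ≤ a3 * c1 := mul_nonneg ha3 hc1
  have hp22 : 0 ≤ a2 * c2 := mul_nonneg ha2 hc2
  have hp21 : 0 ≤ a2 * c1 := mul_nonneg ha2 hc1
  have hp42 : 0 ≤ a4 * c2 := mul_nonneg ha4 hc2
  have e1 : a1 * c1 ≤ M := by nlinarith
  have e2 : a3 * c1 ≤ M := by nlinarith
  have e3 : a2 * c1 ≤ M := by nlinarith
  have e4 : a4 * c2 ≤ M := by nlinarith
  constructor
  · rw [abs_of_nonneg (by linarith), le_div_iff₀ hθ]
    nlinarith
  · rcases le_total g4 g3 with h | h
    · rw [abs_of_nonneg (by linarith), le_div_iff₀ hθ]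
      nlinarith
    · rw [abs_of_nonpos (by linarith), le_div_iff₀ hθ]
      rcases le_or_gt θ c2 with h2 | h2
      · nlinarith
      · have hlo : 4 * θ ≤ g1 - g3 := by
          rcases hlow with h' | h'
          · exact h'
          · exfalso
            linarith
        have h5 : -(g3 - g4) ≤ 2 * a2 := by linarith
        nlinarith

/-- The case of a small mass in the first direction at the top corner. -/
theorem sqb_C {g a c : Bool → Bool → ℝ} {θ : ℝ} (h : Sq g a c) (hθ : 0 < θ) (i j : Bool)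
    (htop : ∀ i' j', g i' j' ≤ g i j) (hlow : ∃ i' j', 4 * θ ≤ g i j - g i' j')
    (hs : a i j < θ) :
    ∃ i₀ j₀, (∀ i j, g i j - 2 * θ ≤ g i₀ j₀) ∧
      ∀ j, |g true j - g false j| ≤ ow a c i₀ j₀ / θ := by
  have hl : 4 * θ ≤ g i j - g i (!j) ∨ 4 * θ ≤ g i j - g (!i) (!j) := by
    obtain ⟨i', j', h'⟩ := hlow
    have hd := h.da i j
    by_cases hj : j' = j
    · subst hj
      by_cases hi : i' = i
      · subst hi
        exfalso; linarith
      · have : i' = !i := by cases i <;> cases i' <;> simp_all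
        subst this
        exfalso; linarith
    · have hj' : j' = !j := by cases j <;> cases j' <;> simp_all
      subst hj'
      by_cases hi : i' = i
      · subst hi
        exact Or.inl h'
      · have : i' = !i := by cases i <;> cases i' <;> simp_all
        subst this
        exact Or.inr h'
  have key := sqb_num (g i j) (g (!i) j) (g i (!j)) (g (!i) (!j)) (a i j) (a (!i) j) (a i (!j))
    (a (!i) (!j)) (c i j) (c (!i) j) θ hθ (h.a0 _ _) (h.a0 _ _) (h.a0 _ _) (h.a0 _ _)
    (h.b0 _ _) (h.b0 _ _) (htop _ _) (htop _ _) (htop _ _) (h.da i j) (h.da i (!j))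
    (by have := h.da (!i) (!j); rwa [Bool.not_not] at this) (h.db i j) (h.db (!i) j) (h.dab i j)
    (by have := h.dab (!i) j; rwa [Bool.not_not] at this) hl hs
  have hO1 : a i j * (c i j + c (!i) j) + c i j * (a i j + a i (!j)) = ow a c i j := rfl
  have hO2 : a (!i) j * (c (!i) j + c i j) + c (!i) j * (a (!i) j + a (!i) (!j)) =
      ow a c (!i) j := by
    unfold ow
    rw [Bool.not_not]
  rw [hO1, hO2] at key
  have conv : ∀ M : ℝ, |g i j - g (!i) j| ≤ M ∧ |g i (!j) - g (!i) (!j)| ≤ M →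
      ∀ j, |g true j - g false j| ≤ M := by
    rintro M ⟨h1, h2⟩ j'
    have h1' : |g true j - g false j| ≤ M := by
      cases i
      · rw [abs_sub_comm]; exact h1
      · exact h1
    have h2' : |g true (!j) - g false (!j)| ≤ M := by
      cases i
      · rw [abs_sub_comm]; exact h2
      · exact h2
    by_cases hj : j' = j
    · rw [hj]; exact h1'
    · have hj' : j' = !j := by cases j <;> cases j' <;> simp_all
      rw [hj']; exact h2'
  rcases le_total (ow a c (!i) j) (ow a c i j) with hle | hle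
  · refine ⟨i, j, fun i' j' => ?_, conv _ (key _ le_rfl hle)⟩
    have := htop i' j'
    linarith
  · refine ⟨!i, j, fun i' j' => ?_, conv _ (key _ hle le_rfl)⟩
    have := htop i' j'
    have := h.da i j
    linarith

theorem exists_top (g : Bool → Bool → ℝ) : ∃ i j, ∀ i' j', g i' j' ≤ g i j := by
  obtain ⟨p, hp⟩ := Finite.exists_max (fun p : Bool × Bool => g p.1 p.2)
  exact ⟨p.1, p.2, fun i' j' => hp (i', j')⟩

/-- SQB. -/
theorem pf_SQB : T_SQB := by
  intro g a a' θ h hθ hvar
  obtain ⟨i, j, htop⟩ := exists_top g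
  have hlow : ∃ i' j', 4 * θ ≤ g i j - g i' j' := by
    obtain ⟨i₁, j₁, i₂, j₂, h12⟩ := hvar
    exact ⟨i₂, j₂, by have := htop i₁ j₁; linarith⟩
  rcases lt_or_ge (a i j) θ with h1 | h1
  · obtain ⟨i₀, j₀, h2, h3⟩ := sqb_C h hθ i j htop hlow h1
    exact ⟨i₀, j₀, h2, Or.inl h3⟩
  · rcases lt_or_ge (a' i j) θ with h2 | h2
    · obtain ⟨i₀, j₀, h3, h4⟩ := sqb_C (sq_swap h) hθ j i (fun i' j' => htop j' i')
        (by obtain ⟨i', j', h'⟩ := hlow; exact ⟨j', i', h'⟩) h2
      refine ⟨j₀, i₀, fun i' j' => h3 j' i', Or.inr fun i' => ?_⟩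
      have := h4 i'
      rwa [ow_swap] at this
    · refine ⟨i, j, fun i' j' => by have := htop i' j'; linarith, Or.inl ?_⟩
      have hO : a i j + a' i j ≤ ow a a' i j / θ := by
        rw [le_div_iff₀ hθ]
        unfold ow
        have := h.a0 i j
        have := h.b0 i j
        have p1 : 0 ≤ a i j * a' (!i) j := mul_nonneg (h.a0 _ _) (h.b0 _ _)
        have p2 : 0 ≤ a' i j * a i (!j) := mul_nonneg (h.b0 _ _) (h.a0 _ _)
        nlinarith
      have hlo : ∀ i' j', g i j - (a i j + a' i j) ≤ g i' j' := by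
        intro i' j'
        have d1 := h.da i j
        have d2 := h.db i j
        have d3 := h.dab i j
        have := h.a0 i j
        have := h.b0 i j
        by_cases hi : i' = i
        · by_cases hj : j' = j
          · subst hi; subst hj; linarith
          · have hj' : j' = !j := by cases j <;> cases j' <;> simp_all
            subst hi; subst hj'; linarith
        · have hi' : i' = !i := by cases i <;> cases i' <;> simp_all
          by_cases hj : j' = j
          · subst hi'; subst hj; linarith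
          · have hj' : j' = !j := by cases j <;> cases j' <;> simp_all
            subst hi'; subst hj'; linarith
      intro j'
      refine le_trans (abs_le.mpr ⟨?_, ?_⟩) hO
      · have := hlo true j'
        have := htop false j'
        linarith
      · have := hlo false j'
        have := htop true j'
        linarith

end Pool.Agent.H43.IP
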