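import Pool.Agent.H66.IP.TA

/-!
# Transport of the mass of a variable along another direction
-/

set_option autoImplicit false

namespace Pool.Agent.H43.IP

open Finset Pool.Agent.H66.IP

section

variable {V : Type} [DecidableEq V]

theorem fp_fp (x : V) (y : V → Bool) : fp x (fp x y) = y := by
  unfold fp
  simp

theorem fp_comm {x z : V} (h : x ≠ z) (y : V → Bool) : fp x (fp z y) = fp z (fp x y) := by
  unfold fp
  rw [Function.update_of_ne h, Function.update_of_ne h.symm]
  exact Function.update_comm h.symm _ _ _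

theorem fp_ne_iff (x : V) (y : V → Bool) (w : V) : y w ≠ fp x y w ↔ w = x := by
  unfold fp
  by_cases h : w = x
  · subst h
    simp
  · simp [Function.update_of_ne h, h]

theorem fp_fp_ne_iff {x z : V} (h : x ≠ z) (y : V → Bool) (w : V) :
    y w ≠ fp x (fp z y) w ↔ w = x ∨ w = z := by
  by_cases h1 : w = x
  · subst h1
    simp [fp, Function.update_of_ne h]
  · by_cases h2 : w = z
    · subst h2
      simp [fp, Function.update_of_ne h1]
    · simp [fp, Function.update_of_ne h1, Function.update_of_ne h2, h1, h2]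

end

section

variable {V : Type} [Fintype V] [DecidableEq V]

theorem lip1 (hLIP : T_LIP) {β : ℝ} (hβ : 0 < β) (t : Tr V) (x : V) (y : V → Bool) :
    t.sv β y - t.sv β (fp x y) ≤ t.ms β x y := by
  have h := hLIP V β t y (fp x y) hβ
  have hf : univ.filter (fun w => y w ≠ fp x y w) = {x} := by
    ext w
    rw [mem_filter, mem_singleton]
    simp only [mem_univ, true_and]
    exact fp_ne_iff x y w
  rwa [hf, sum_singleton] at h

theorem lip1' (hLIP : T_LIP) {β : ℝ} (hβ : 0 < β) (t : Tr V) (x : V) (y : V → Bool) :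
    t.sv β (fp x y) - t.sv β y ≤ t.ms β x (fp x y) := by
  have h := lip1 hLIP hβ t x (fp x y)
  rwa [fp_fp] at h

theorem lip2 (hLIP : T_LIP) {β : ℝ} (hβ : 0 < β) (t : Tr V) {x z : V} (hxz : x ≠ z)
    (y : V → Bool) : t.sv β y - t.sv β (fp x (fp z y)) ≤ t.ms β x y + t.ms β z y := by
  have h := hLIP V β t y (fp x (fp z y)) hβ
  have hf : univ.filter (fun w => y w ≠ fp x (fp z y) w) = {x, z} := by
    ext w
    rw [mem_filter, mem_insert, mem_singleton]
    simp only [mem_univ, true_and]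
    exact fp_fp_ne_iff hxz y w
  rwa [hf, sum_pair hxz] at h

theorem own_eq (β : ℝ) (t : Tr V) (x z : V) (y : V → Bool) : t.own β x z y =
    t.ms β x y * (t.ms β z y + t.ms β z (fp x y)) + t.ms β z y * (t.ms β x y + t.ms β x (fp z y)) :=
  rfl

theorem hv1 (hMSS : T_MSS) (hRSM : T_RSM) {β θ : ℝ} (hβ : 0 < β) (hθ : 0 < θ) (t : Tr V)
    (x z : V) (y : V → Bool) (h : θ ≤ t.ms β x y) : t.ms β z y ≤ t.rr β x z y / θ := by
  have hR := ((hRSM V β t y hβ).1 x z).2
  rw [own_eq] at hR
  have hm := fun w y' => ((hMSS V β t y' hβ).1 w).1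
  rw [le_div_iff₀ hθ]
  have p1 := mul_nonneg (hm x y) (hm z (fp x y))
  have p2 := mul_nonneg (hm z y) (hm x y)
  have p3 := mul_nonneg (hm z y) (hm x (fp z y))
  have p4 : θ * t.ms β z y ≤ t.ms β x y * t.ms β z y :=
    mul_le_mul_of_nonneg_right h (hm z y)
  nlinarith

theorem hv2 (hMSS : T_MSS) (hRSM : T_RSM) {β θ : ℝ} (hβ : 0 < β) (hθ : 0 < θ) (t : Tr V)
    (x z : V) (y : V → Bool) (h : θ ≤ t.ms β x (fp x y)) :
    t.ms β z y ≤ t.rr β x z (fp x y) / θ := by
  have hR := ((hRSM V β t (fp x y) hβ).1 x z).2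
  rw [own_eq, fp_fp] at hR
  have hm := fun w y' => ((hMSS V β t y' hβ).1 w).1
  rw [le_div_iff₀ hθ]
  have p1 := mul_nonneg (hm x (fp x y)) (hm z (fp x y))
  have p2 := mul_nonneg (hm z (fp x y)) (hm x (fp x y))
  have p3 := mul_nonneg (hm z (fp x y)) (hm x (fp z (fp x y)))
  have p4 : θ * t.ms β z y ≤ t.ms β x (fp x y) * t.ms β z y :=
    mul_le_mul_of_nonneg_right h (hm z y)
  nlinarith

theorem num_i (p p' A A' X X' Em s E : ℝ) (hp : 0 ≤ p) (hp' : 0 ≤ p') (hA' : 0 ≤ A')
    (hX : 0 ≤ X) (hX' : 0 ≤ X') (hEm : 0 ≤ Em) (hs : 1 ≤ s) (h1 : p ≤ s * p')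
    (h2 : A ≤ Em * (A' + (X + X'))) (h3 : Em * s ≤ E) :
    p * A ≤ E * (p' * A' + (p * X + p' * X')) := by
  have hT : 0 ≤ p' * A' + (p * X + p' * X') := by positivity
  have e1 : p * A' ≤ s * p' * A' := mul_le_mul_of_nonneg_right h1 hA'
  have e2 : p * X' ≤ s * p' * X' := mul_le_mul_of_nonneg_right h1 hX'
  have e3 : p * X ≤ s * (p * X) := by
    have : 0 ≤ p * X := mul_nonneg hp hX
    nlinarith
  calc p * A ≤ p * (Em * (A' + (X + X'))) := mul_le_mul_of_nonneg_left h2 hp
    _ = Em * (p * A' + p * X + p * X') := by ring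
    _ ≤ Em * (s * p' * A' + s * (p * X) + s * p' * X') :=
        mul_le_mul_of_nonneg_left (by linarith) hEm
    _ = (Em * s) * (p' * A' + (p * X + p' * X')) := by ring
    _ ≤ E * (p' * A' + (p * X + p' * X')) := mul_le_mul_of_nonneg_right h3 hT

theorem num_ii (p p' A A' X X' E : ℝ) (hp : 0 ≤ p) (hp' : 0 ≤ p') (hA' : 0 ≤ A')
    (hX : 0 ≤ X) (hX' : 0 ≤ X') (hE : 1 ≤ E) (h : p * A ≤ p * X ∨ p * A ≤ p' * X') :
    p * A ≤ E * (p' * A' + (p * X + p' * X')) := by
  have h1 : 0 ≤ p' * A' := mul_nonneg hp' hA'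
  have h2 : 0 ≤ p * X := mul_nonneg hp hX
  have h3 : 0 ≤ p' * X' := mul_nonneg hp' hX'
  have h4 : p' * A' + (p * X + p' * X') ≤ E * (p' * A' + (p * X + p' * X')) := by
    nlinarith
  rcases h with h | h
  · linarith
  · linarith

/-- The contribution of a child with value `G`, at a node with value `v`. -/
theorem child (hMSS : T_MSS) (hLIP : T_LIP) (hRSM : T_RSM) {β θ : ℝ} (hβ : 0 < β) (hθ : 0 < θ)
    (x z : V) (m : Tr V) (y : V → Bool) (v v' p p' E : ℝ)
    (hv : |v - v'| < θ) (hp : p = Real.exp (β * (m.sv β y - v)) / 2)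
    (hp' : p' = Real.exp (β * (m.sv β (fp x y) - v')) / 2) (hE : 1 ≤ E)
    (hEm : Real.exp (2 * (β * θ) * m.cc) * Real.exp (2 * (β * θ)) ≤ E)
    (IH : m.ms β z y ≤ Real.exp (2 * (β * θ) * m.cc) *
      (m.ms β z (fp x y) + (m.rr β x z y + m.rr β x z (fp x y)) / θ)) :
    p * m.ms β z y ≤ E * (p' * m.ms β z (fp x y) +
      (p * (m.rr β x z y / θ) + p' * (m.rr β x z (fp x y) / θ))) := by
  have hm := fun w y' => ((hMSS V β m y' hβ).1 w).1
  have hR := fun y' => le_trans ((hRSM V β m y' hβ).1 x z).1 ((hRSM V β m y' hβ).1 x z).2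
  have hp0 : 0 ≤ p := by rw [hp]; positivity
  have hp0' : 0 ≤ p' := by rw [hp']; positivity
  have hX : 0 ≤ m.rr β x z y / θ := div_nonneg (hR y) hθ.le
  have hX' : 0 ≤ m.rr β x z (fp x y) / θ := div_nonneg (hR _) hθ.le
  rw [abs_lt] at hv
  by_cases h1 : |m.sv β y - m.sv β (fp x y)| < θ
  · rw [abs_lt] at h1
    refine num_i _ _ _ _ _ _ (Real.exp (2 * (β * θ) * m.cc)) (Real.exp (2 * (β * θ))) E hp0 hp0'
      (hm _ _) hX hX' (Real.exp_pos _).le (Real.one_le_exp (by positivity)) ?_ ?_ hEm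
    · rw [hp, hp']
      have : Real.exp (β * (m.sv β y - v)) ≤
          Real.exp (2 * (β * θ)) * Real.exp (β * (m.sv β (fp x y) - v')) := by
        rw [← Real.exp_add]
        apply Real.exp_le_exp.mpr
        have : 0 < β * (2 * θ + (m.sv β (fp x y) - v') - (m.sv β y - v)) :=
          mul_pos hβ (by linarith)
        nlinarith
      linarith
    · rw [add_div] at IH
      exact IH
  · refine num_ii _ _ _ _ _ _ E hp0 hp0' (hm _ _) hX hX' hE ?_
    by_cases h2 : θ ≤ m.ms β x y
    · left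
      exact mul_le_mul_of_nonneg_left (hv1 hMSS hRSM hβ hθ m x z y h2) hp0
    · right
      have l1 := lip1 hLIP hβ m x y
      have l2 := lip1' hLIP hβ m x y
      have h3 : θ ≤ m.sv β (fp x y) - m.sv β y := by
        rcases le_abs.mp (not_lt.mp h1) with h | h
        · exfalso; linarith
        · linarith
      have h4 : m.ms β z y ≤ m.rr β x z (fp x y) / θ :=
        hv2 hMSS hRSM hβ hθ m x z y (by linarith)
      have h5 : p ≤ p' := by
        rw [hp, hp']
        have : Real.exp (β * (m.sv β y - v)) ≤ Real.exp (β * (m.sv β (fp x y) - v')) := by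
          apply Real.exp_le_exp.mpr
          exact mul_le_mul_of_nonneg_left (by linarith) hβ.le
        linarith
      calc p * m.ms β z y ≤ p * (m.rr β x z (fp x y) / θ) := mul_le_mul_of_nonneg_left h4 hp0
        _ ≤ p' * (m.rr β x z (fp x y) / θ) := mul_le_mul_of_nonneg_right h5 hX'

theorem trn_core (hSMA : T_SMA) (hMSS : T_MSS) (hLIP : T_LIP) (hRSM : T_RSM)
    {β θ : ℝ} (hβ : 0 < β) (hθ : 0 < θ) (hθ1 : θ < 1) (x z : V) (t : Tr V) : ∀ y : V → Bool,
    t.ms β z y ≤ Real.exp (2 * (β * θ) * t.cc) *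
      (t.ms β z (fp x y) + (t.rr β x z y + t.rr β x z (fp x y)) / θ) := by
  -- if the right side without the factor is large enough
  have fin : ∀ (t : Tr V) (y : V → Bool),
      t.ms β z y ≤ t.ms β z (fp x y) + (t.rr β x z y + t.rr β x z (fp x y)) / θ →
      t.ms β z y ≤ Real.exp (2 * (β * θ) * t.cc) *
        (t.ms β z (fp x y) + (t.rr β x z y + t.rr β x z (fp x y)) / θ) := by
    intro t y h
    have h0 := ((hMSS V β t y hβ).1 z).1
    have hE : 1 ≤ Real.exp (2 * (β * θ) * t.cc) := Real.one_le_exp (by positivity)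
    nlinarith
  have heavy : ∀ (t : Tr V) (y : V → Bool), θ ≤ |t.sv β y - t.sv β (fp x y)| →
      t.ms β z y ≤ t.ms β z (fp x y) + (t.rr β x z y + t.rr β x z (fp x y)) / θ := by
    intro t y h
    have hm := fun w y' => ((hMSS V β t y' hβ).1 w).1
    have hR := fun y' => le_trans ((hRSM V β t y' hβ).1 x z).1 ((hRSM V β t y' hβ).1 x z).2
    have l1 := lip1 hLIP hβ t x y
    have l2 := lip1' hLIP hβ t x y
    have hX : 0 ≤ t.rr β x z y / θ := div_nonneg (hR y) hθ.le
    have hX' : 0 ≤ t.rr β x z (fp x y) / θ := div_nonneg (hR _) hθ.le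
    have hz := hm z (fp x y)
    rw [add_div]
    rcases le_abs.mp h with h | h
    · have := hv1 hMSS hRSM hβ hθ t x z y (by linarith)
      linarith
    · have := hv2 hMSS hRSM hβ hθ t x z y (by linarith)
      linarith
  induction t with
  | lf c τ =>
    intro y
    apply fin
    by_cases h : θ ≤ |(Tr.lf c τ).sv β y - (Tr.lf c τ).sv β (fp x y)|
    · exact heavy _ _ h
    · have hR := fun y' => le_trans ((hRSM V β (Tr.lf c τ) y' hβ).1 x z).1
        ((hRSM V β (Tr.lf c τ) y' hβ).1 x z).2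
      have hX : 0 ≤ ((Tr.lf c τ).rr β x z y + (Tr.lf c τ).rr β x z (fp x y)) / θ :=
        div_nonneg (add_nonneg (hR y) (hR _)) hθ.le
      have heq : lv c τ y = lv c τ (fp x y) := by
        have h' : |lv c τ y - lv c τ (fp x y)| < θ := not_le.mp h
        unfold lv at h' ⊢
        split_ifs at h' ⊢ with h1 h2 h2
        · rfl
        · exfalso; norm_num at h'; linarith
        · exfalso; norm_num at h'; linarith
        · rfl
      have hz : (Tr.lf c τ).ms β z y = (Tr.lf c τ).ms β z (fp x y) := by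
        unfold Tr.ms
        rw [heq]
      linarith
  | av l r ihl ihr =>
    intro y
    have hl := ihl y
    have hr := ihr y
    have hR := fun (m : Tr V) y' => le_trans ((hRSM V β m y' hβ).1 x z).1
      ((hRSM V β m y' hβ).1 x z).2
    have hm := fun (m : Tr V) w y' => ((hMSS V β m y' hβ).1 w).1
    have hEl : Real.exp (2 * (β * θ) * l.cc) ≤ Real.exp (2 * (β * θ) * (Tr.av l r).cc) := by
      apply Real.exp_le_exp.mpr
      apply mul_le_mul_of_nonneg_left _ (by positivity)
      exact_mod_cast (le_max_left l.cc r.cc : l.cc ≤ (Tr.av l r).cc)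
    have hEr : Real.exp (2 * (β * θ) * r.cc) ≤ Real.exp (2 * (β * θ) * (Tr.av l r).cc) := by
      apply Real.exp_le_exp.mpr
      apply mul_le_mul_of_nonneg_left _ (by positivity)
      exact_mod_cast (le_max_right l.cc r.cc : r.cc ≤ (Tr.av l r).cc)
    set E := Real.exp (2 * (β * θ) * (Tr.av l r).cc) with hEdef
    have hE0 : 0 ≤ E := (Real.exp_pos _).le
    have hsl : 0 ≤ l.ms β z (fp x y) + (l.rr β x z y + l.rr β x z (fp x y)) / θ :=
      add_nonneg (hm _ _ _) (div_nonneg (add_nonneg (hR _ _) (hR _ _)) hθ.le)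
    have hsr : 0 ≤ r.ms β z (fp x y) + (r.rr β x z y + r.rr β x z (fp x y)) / θ :=
      add_nonneg (hm _ _ _) (div_nonneg (add_nonneg (hR _ _) (hR _ _)) hθ.le)
    have hl' := hl.trans (mul_le_mul_of_nonneg_right hEl hsl)
    have hr' := hr.trans (mul_le_mul_of_nonneg_right hEr hsr)
    have e0 : (Tr.av l r).ms β z y = (l.ms β z y + r.ms β z y) / 2 := rfl
    have e1 : (Tr.av l r).ms β z (fp x y) = (l.ms β z (fp x y) + r.ms β z (fp x y)) / 2 := rfl
    have e2 : ∀ y', (Tr.av l r).rr β x z y' = (Tr.av l r).own β x z y' +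
      (l.rr β x z y' + r.rr β x z y') / 2 := fun _ => rfl
    have o1 := ((hRSM V β (Tr.av l r) y hβ).1 x z).1
    have o2 := ((hRSM V β (Tr.av l r) (fp x y) hβ).1 x z).1
    have hfin : (l.ms β z (fp x y) + (l.rr β x z y + l.rr β x z (fp x y)) / θ) +
        (r.ms β z (fp x y) + (r.rr β x z y + r.rr β x z (fp x y)) / θ) ≤
        2 * ((Tr.av l r).ms β z (fp x y) +
          ((Tr.av l r).rr β x z y + (Tr.av l r).rr β x z (fp x y)) / θ) := by
      have : 2 * ((Tr.av l r).ms β z (fp x y) +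
          ((Tr.av l r).rr β x z y + (Tr.av l r).rr β x z (fp x y)) / θ) -
          ((l.ms β z (fp x y) + (l.rr β x z y + l.rr β x z (fp x y)) / θ) +
        (r.ms β z (fp x y) + (r.rr β x z y + r.rr β x z (fp x y)) / θ)) =
          2 * ((Tr.av l r).own β x z y + (Tr.av l r).own β x z (fp x y)) / θ := by
        rw [e1, e2, e2]
        ring
      have h' : 0 ≤ 2 * ((Tr.av l r).own β x z y + (Tr.av l r).own β x z (fp x y)) / θ := by
        positivity
      linarith
    have := mul_le_mul_of_nonneg_left hfin hE0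
    rw [e0]
    nlinarith
  | ch l r ihl ihr =>
    intro y
    by_cases h : θ ≤ |(Tr.ch l r).sv β y - (Tr.ch l r).sv β (fp x y)|
    · exact fin _ _ (heavy _ _ h)
    · have hv := not_le.mp h
      have sv_eq : ∀ y', (Tr.ch l r).sv β y' = smx β (l.sv β y') (r.sv β y') := fun _ => rfl
      have gl : ∀ y', gw β (l.sv β y') (r.sv β y') =
          Real.exp (β * (l.sv β y' - (Tr.ch l r).sv β y')) / 2 := fun y' =>
        (hSMA β hβ _ _).2.2.1
      have gr : ∀ y', gw β (r.sv β y') (l.sv β y') =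
          Real.exp (β * (r.sv β y' - (Tr.ch l r).sv β y')) / 2 := fun y' => by
        rw [sv_eq, (hSMA β hβ (l.sv β y') (r.sv β y')).1.2.2.2]
        exact (hSMA β hβ _ _).2.2.1
      have hE1 : 1 ≤ Real.exp (2 * (β * θ) * (Tr.ch l r).cc) := Real.one_le_exp (by positivity)
      have hEl : Real.exp (2 * (β * θ) * l.cc) * Real.exp (2 * (β * θ)) ≤
          Real.exp (2 * (β * θ) * (Tr.ch l r).cc) := by
        rw [← Real.exp_add]
        apply Real.exp_le_exp.mpr
        have hc : (l.cc : ℝ) + 1 ≤ ((Tr.ch l r).cc : ℝ) := by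
          have : l.cc + 1 ≤ (Tr.ch l r).cc := Nat.succ_le_succ (le_max_left l.cc r.cc)
          exact_mod_cast this
        have := mul_le_mul_of_nonneg_left hc (by positivity : 0 ≤ 2 * (β * θ))
        linarith
      have hEr : Real.exp (2 * (β * θ) * r.cc) * Real.exp (2 * (β * θ)) ≤
          Real.exp (2 * (β * θ) * (Tr.ch l r).cc) := by
        rw [← Real.exp_add]
        apply Real.exp_le_exp.mpr
        have hc : (r.cc : ℝ) + 1 ≤ ((Tr.ch l r).cc : ℝ) := by
          have : r.cc + 1 ≤ (Tr.ch l r).cc := Nat.succ_le_succ (le_max_right l.cc r.cc)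
          exact_mod_cast this
        have := mul_le_mul_of_nonneg_left hc (by positivity : 0 ≤ 2 * (β * θ))
        linarith
      have cl := child hMSS hLIP hRSM hβ hθ x z l y _ _ _ _ _ hv (gl y) (gl (fp x y)) hE1 hEl
        (ihl y)
      have cr := child hMSS hLIP hRSM hβ hθ x z r y _ _ _ _ _ hv (gr y) (gr (fp x y)) hE1 hEr
        (ihr y)
      set E := Real.exp (2 * (β * θ) * (Tr.ch l r).cc) with hEdef
      have e0 : ∀ y', (Tr.ch l r).ms β z y' = gw β (l.sv β y') (r.sv β y') * l.ms β z y' +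
        gw β (r.sv β y') (l.sv β y') * r.ms β z y' := fun _ => rfl
      have e2 : ∀ y', (Tr.ch l r).rr β x z y' = (Tr.ch l r).own β x z y' +
        (gw β (l.sv β y') (r.sv β y') * l.rr β x z y' +
          gw β (r.sv β y') (l.sv β y') * r.rr β x z y') := fun _ => rfl
      have o1 := ((hRSM V β (Tr.ch l r) y hβ).1 x z).1
      have o2 := ((hRSM V β (Tr.ch l r) (fp x y) hβ).1 x z).1
      have hsum : E * (gw β (l.sv β (fp x y)) (r.sv β (fp x y)) * l.ms β z (fp x y) +
            (gw β (l.sv β y) (r.sv β y) * (l.rr β x z y / θ) +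
              gw β (l.sv β (fp x y)) (r.sv β (fp x y)) * (l.rr β x z (fp x y) / θ))) +
          E * (gw β (r.sv β (fp x y)) (l.sv β (fp x y)) * r.ms β z (fp x y) +
            (gw β (r.sv β y) (l.sv β y) * (r.rr β x z y / θ) +
              gw β (r.sv β (fp x y)) (l.sv β (fp x y)) * (r.rr β x z (fp x y) / θ))) =
          E * ((Tr.ch l r).ms β z (fp x y) + ((Tr.ch l r).rr β x z y +
            (Tr.ch l r).rr β x z (fp x y)) / θ) -
          E * (((Tr.ch l r).own β x z y + (Tr.ch l r).own β x z (fp x y)) / θ) := by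
        rw [e0, e2, e2]
        ring
      have hpos : 0 ≤ E * (((Tr.ch l r).own β x z y + (Tr.ch l r).own β x z (fp x y)) / θ) := by
        positivity
      rw [e0 y]
      linarith

end

theorem tht_pos {β : ℝ} {k : ℕ} (hβ : 1 ≤ β) (hk : 1 ≤ k) : 0 < tht β k := by
  unfold tht
  have : (0 : ℝ) < k := by exact_mod_cast hk
  positivity

theorem tht_mul {β : ℝ} {k : ℕ} (hβ : 1 ≤ β) (hk : 1 ≤ k) : β * tht β k * k = 1 / 40 := by
  unfold tht
  have : (0 : ℝ) < k := by exact_mod_cast hk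
  field_simp

theorem tht_lt_one {β : ℝ} {k : ℕ} (hβ : 1 ≤ β) (hk : 1 ≤ k) : tht β k < 1 := by
  unfold tht
  have hk' : (1 : ℝ) ≤ k := by exact_mod_cast hk
  rw [div_lt_one (by positivity)]
  nlinarith

/-- TRN. -/
theorem pf_TRN (hSMA : T_SMA) (_hEVS : T_EVS) (hMSS : T_MSS) (hLIP : T_LIP) (hRSM : T_RSM) :
    T_TRN := by
  intro V _ _ β k t y x z hβ hk hcc _
  have hβ0 : 0 < β := by linarith
  have hθ := tht_pos hβ hk
  have h := trn_core hSMA hMSS hLIP hRSM hβ0 hθ (tht_lt_one hβ hk) x z t y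
  have hR := fun y' => le_trans ((hRSM V β t y' hβ0).1 x z).1 ((hRSM V β t y' hβ0).1 x z).2
  have hm := ((hMSS V β t (fp x y) hβ0).1 z).1
  have hS : 0 ≤ t.ms β z (fp x y) + (t.rr β x z y + t.rr β x z (fp x y)) / tht β k :=
    add_nonneg hm (div_nonneg (add_nonneg (hR _) (hR _)) hθ.le)
  refine h.trans (mul_le_mul_of_nonneg_right ?_ hS)
  have h1 : 2 * (β * tht β k) * t.cc ≤ 1 := by
    have hc : (t.cc : ℝ) ≤ k := by exact_mod_cast hcc
    have := mul_le_mul_of_nonneg_left hc (by positivity : 0 ≤ 2 * (β * tht β k))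
    have h2 := tht_mul hβ hk
    nlinarith
  calc Real.exp (2 * (β * tht β k) * t.cc) ≤ Real.exp 1 := Real.exp_le_exp.mpr h1
    _ ≤ 3 := by
      have := Real.exp_one_lt_d9
      linarith

end Pool.Agent.H43.IP
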